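import Pool.Agent.Helper26.CL.St

/-! # Project CM (MP_65faa7), module C1: sines are eigenfunctions of symmetric convolutions -/

set_option autoImplicit false

open scoped BigOperators
open Pool.LE Pool.NL Pool.CN

namespace Pool.CN

namespace C1M

/-- sign changes of the coordinates -/
def sgE {d : ℕ} (s : Fin d → ℤˣ) : Zd d ≃ Zd d where
  toFun := sgp 1 s
  invFun := sgp 1 s
  left_inv := by
    intro x
    funext i
    change (s i : ℤ) * ((s i : ℤ) * x i) = x i
    rw [← mul_assoc, ← Units.val_mul, Int.units_mul_self, Units.val_one, one_mul]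
  right_inv := by
    intro x
    funext i
    change (s i : ℤ) * ((s i : ℤ) * x i) = x i
    rw [← mul_assoc, ← Units.val_mul, Int.units_mul_self, Units.val_one, one_mul]

theorem sum_units (g : ℤˣ → ℂ) : ∑ ε : ℤˣ, g ε = g 1 + g (-1) := by
  have h : (Finset.univ : Finset ℤˣ) = {1, -1} := by
    ext x
    simp only [Finset.mem_univ, Finset.mem_insert, Finset.mem_singleton, true_iff]
    exact Int.units_eq_one_or x
  rw [h, Finset.sum_pair (by decide)]

theorem summable_aux {d : ℕ} {f : Zd d → ℝ} (hf : Summable f) (g : Zd d → ℂ) (hg : ∀ y, ‖g y‖ ≤ 1) :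
    Summable (fun y => (f y : ℂ) * g y) := by
  apply Summable.of_norm_bounded (g := fun y => |f y|) hf.abs
  intro y
  rw [norm_mul, Complex.norm_real, Real.norm_eq_abs]
  exact mul_le_of_le_one_right (abs_nonneg _) (hg y)

/-- the even part -/
theorem even_part {d : ℕ} {f : Zd d → ℝ} (hf : Summable f) (hs : SymF f) (φ : Fin d → ℤ → ℂ)
    (hφ : ∀ i m, ‖φ i m‖ ≤ 1) :
    ∑' y : Zd d, (f y : ℂ) * ∏ i, φ i (y i) =
      ∑' y : Zd d, (f y : ℂ) * ∏ i, ((φ i (y i) + φ i (-(y i))) / 2) := by
  have hb : ∀ s : Fin d → ℤˣ, ∀ y : Zd d, ‖∏ i, φ i ((s i : ℤ) * y i)‖ ≤ 1 := by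
    intro s y
    rw [norm_prod]
    exact Finset.prod_le_one (fun i _ => norm_nonneg _) (fun i _ => hφ i _)
  have h1 : ∀ s : Fin d → ℤˣ, ∑' y : Zd d, (f y : ℂ) * ∏ i, φ i ((s i : ℤ) * y i) =
      ∑' y : Zd d, (f y : ℂ) * ∏ i, φ i (y i) := by
    intro s
    rw [← (sgE s).tsum_eq (fun y : Zd d => (f y : ℂ) * ∏ i, φ i (y i))]
    apply tsum_congr
    intro y
    have h2 : f (sgE s y) = f y := hs 1 s y
    rw [h2]
    rfl
  have h3 : ∑ s : Fin d → ℤˣ, ∑' y : Zd d, (f y : ℂ) * ∏ i, φ i ((s i : ℤ) * y i) =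
      (2 : ℂ) ^ d * ∑' y : Zd d, (f y : ℂ) * ∏ i, φ i (y i) := by
    rw [Finset.sum_congr rfl (fun s _ => h1 s), Finset.sum_const, nsmul_eq_mul]
    congr 1
    have h4 : (Finset.univ : Finset (Fin d → ℤˣ)).card = 2 ^ d := by
      rw [Finset.card_univ, Fintype.card_fun, Fintype.card_fin]
      rfl
    rw [h4]
    push_cast
    rfl
  have h5 : ∑ s : Fin d → ℤˣ, ∑' y : Zd d, (f y : ℂ) * ∏ i, φ i ((s i : ℤ) * y i) =
      ∑' y : Zd d, (f y : ℂ) * ∏ i, (φ i (y i) + φ i (-(y i))) := by
    rw [← Summable.tsum_finsetSum (fun s _ => summable_aux hf _ (hb s))]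
    apply tsum_congr
    intro y
    rw [← Finset.mul_sum]
    congr 1
    have h6 : ∏ i, (φ i (y i) + φ i (-(y i))) = ∏ i : Fin d, ∑ ε : ℤˣ, φ i ((ε : ℤ) * y i) := by
      apply Finset.prod_congr rfl
      intro i _
      rw [sum_units]
      simp
    rw [h6, Finset.prod_univ_sum, Fintype.piFinset_univ]
  have h7 : ∀ y : Zd d, (f y : ℂ) * ∏ i, ((φ i (y i) + φ i (-(y i))) / 2) =
      ((2 : ℂ) ^ d)⁻¹ * ((f y : ℂ) * ∏ i, (φ i (y i) + φ i (-(y i)))) := by
    intro y
    rw [Finset.prod_div_distrib, Finset.prod_const, Finset.card_univ, Fintype.card_fin]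
    ring
  rw [tsum_congr h7, tsum_mul_left, ← h5, h3, ← mul_assoc, inv_mul_cancel₀ (pow_ne_zero _ two_ne_zero), one_mul]

end C1M

open C1M

theorem hC1 : StC1 := by
  intro d n k f hf hs b
  have hsk : ∀ x : Zd d, |sk n k x| ≤ 1 := by
    intro x
    unfold sk
    rw [Finset.abs_prod]
    exact Finset.prod_le_one (fun i _ => abs_nonneg _) (fun i _ => Real.abs_sin_le_one _)
  have hfb : Summable (fun x : Zd d => f (x - b)) := by
    have := (Equiv.subRight b).summable_iff (f := f)
    exact this.2 hf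
  refine ⟨?_, ?_⟩
  · apply Summable.of_norm_bounded (g := fun x : Zd d => |f (x - b)|) hfb.abs
    intro x
    rw [norm_mul, Real.norm_eq_abs, Real.norm_eq_abs]
    exact mul_le_of_le_one_right (abs_nonneg _) (hsk x)
  · have h1 : ∑' x : Zd d, f (x - b) * sk n k x = ∑' y : Zd d, f y * sk n k (y + b) := by
      rw [← (Equiv.addRight b).tsum_eq (fun x : Zd d => f (x - b) * sk n k x)]
      apply tsum_congr
      intro y
      change f (y + b - b) * sk n k (y + b) = _
      rw [add_sub_cancel_right]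
    -- complex versions
    have h2 : ((∑' y : Zd d, f y * sk n k (y + b) : ℝ) : ℂ) =
        ∑' y : Zd d, (f y : ℂ) * ∏ i, (Complex.ofReal (Real.sin (kap n k i * ((b i : ℝ) + 1) + kap n k i * (y i : ℝ)))) := by
      rw [Complex.ofReal_tsum]
      apply tsum_congr
      intro y
      rw [Complex.ofReal_mul]
      congr 1
      unfold sk
      rw [Complex.ofReal_prod]
      apply Finset.prod_congr rfl
      intro i _
      congr 2
      have : (((y + b) i : ℤ) : ℝ) = (y i : ℝ) + (b i : ℝ) := by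
        change (((y i + b i : ℤ)) : ℝ) = _
        push_cast
        rfl
      rw [this]
      ring
    have h3 := even_part hf hs (fun i m => Complex.ofReal (Real.sin (kap n k i * ((b i : ℝ) + 1) + kap n k i * (m : ℝ))))
      (by
        intro i m
        rw [Complex.norm_real, Real.norm_eq_abs]
        exact Real.abs_sin_le_one _)
    have h4 := even_part hf hs (fun i m => Complex.exp (Complex.ofReal (kap n k i * (m : ℝ)) * Complex.I))
      (by
        intro i m
        rw [Complex.norm_exp_ofReal_mul_I])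
    have h5 : ∀ y : Zd d, (f y : ℂ) * ∏ i, ((Complex.ofReal (Real.sin (kap n k i * ((b i : ℝ) + 1) + kap n k i * ((y i : ℤ) : ℝ)))
        + Complex.ofReal (Real.sin (kap n k i * ((b i : ℝ) + 1) + kap n k i * ((-(y i) : ℤ) : ℝ)))) / 2) =
        (sk n k b : ℂ) * ((f y : ℂ) * ∏ i, Complex.ofReal (Real.cos (kap n k i * (y i : ℝ)))) := by
      intro y
      unfold sk
      rw [Complex.ofReal_prod, mul_left_comm, ← Finset.prod_mul_distrib]
      congr 1
      apply Finset.prod_congr rfl
      intro i _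
      have e1 : kap n k i * ((-(y i) : ℤ) : ℝ) = -(kap n k i * (y i : ℝ)) := by
        push_cast
        ring
      rw [e1, Real.sin_add, Real.sin_add, Real.cos_neg, Real.sin_neg]
      push_cast
      ring
    have h6 : ∀ y : Zd d, (f y : ℂ) * ∏ i, ((Complex.exp (Complex.ofReal (kap n k i * ((y i : ℤ) : ℝ)) * Complex.I)
        + Complex.exp (Complex.ofReal (kap n k i * ((-(y i) : ℤ) : ℝ)) * Complex.I)) / 2) =
        ((f y : ℂ) * ∏ i, Complex.ofReal (Real.cos (kap n k i * (y i : ℝ)))) := by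
      intro y
      congr 1
      apply Finset.prod_congr rfl
      intro i _
      have e1 : kap n k i * ((-(y i) : ℤ) : ℝ) = -(kap n k i * (y i : ℝ)) := by
        push_cast
        ring
      rw [e1, Complex.ofReal_cos, Complex.cos, Complex.ofReal_neg]
    have h7 : ∀ y : Zd d, ∏ i, Complex.exp (Complex.ofReal (kap n k i * (y i : ℝ)) * Complex.I) =
        Complex.exp (Complex.ofReal (∑ i, kap n k i * (y i : ℝ)) * Complex.I) := by
      intro y
      rw [← Complex.exp_sum, Complex.ofReal_sum, Finset.sum_mul]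
    have h8 : FT f (kap n k) = (∑' y : Zd d, (f y : ℂ) *
        ∏ i, Complex.exp (Complex.ofReal (kap n k i * (y i : ℝ)) * Complex.I)).re := by
      unfold FT
      rw [Complex.re_tsum (summable_aux hf _ (by
        intro y
        rw [h7, Complex.norm_exp_ofReal_mul_I]))]
      apply tsum_congr
      intro y
      rw [h7, Complex.re_ofReal_mul, Complex.exp_ofReal_mul_I_re]
    have h9 : ∑' y : Zd d, (f y : ℂ) * ∏ i, Complex.ofReal (Real.cos (kap n k i * (y i : ℝ))) =
        ((∑' y : Zd d, f y * ∏ i, Real.cos (kap n k i * (y i : ℝ)) : ℝ) : ℂ) := by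
      rw [Complex.ofReal_tsum]
      apply tsum_congr
      intro y
      rw [Complex.ofReal_mul, Complex.ofReal_prod]
    have h10 : FT f (kap n k) = ∑' y : Zd d, f y * ∏ i, Real.cos (kap n k i * (y i : ℝ)) := by
      rw [h8, h4, tsum_congr h6, h9, Complex.ofReal_re]
    have h11 : ((∑' y : Zd d, f y * sk n k (y + b) : ℝ) : ℂ) = ((FT f (kap n k) * sk n k b : ℝ) : ℂ) := by
      rw [h2, h3, tsum_congr h5, tsum_mul_left, h9, h10, Complex.ofReal_mul, mul_comm]
    rw [h1]
    exact_mod_cast h11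

end Pool.CN
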